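import Pool.Agent.W243.TD.Stm
import Pool.Agent.W252.GelRep
import Pool.Agent.W252.GelCoef

/-!
# Part TD-REP: representation of the entries by matrices over `ℤ[θ]`
-/

set_option autoImplicit false

namespace Pool.Agent.W975.TD

open Polynomial Finset
open Pool.Agent.H301R2.TR (LamF entG)
open Pool.Agent.W252 (RD)
open Pool.Agent.W252.RD
open Pool.Agent.W243.TD

variable {θ : ℂ}

theorem rep_lin' (R : RD θ) {d : ℕ} (x : Fin d → ℂ) (hx : ∀ i, R.Rep 1 1 (x i)) (S : ℕ)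
    (k : Fin d → ℕ) (hk : ∀ i, k i ≤ S) : R.Rep 1 (d * S : ℕ) (∑ i, x i * (k i : ℂ)) := by
  have h := Pool.Agent.W252.rep_lin R x hx S k hk
  have e : ∑ i, x i * (k i : ℂ) = ∑ i, (k i : ℂ) * x i :=
    Finset.sum_congr rfl fun i _ => mul_comm _ _
  rw [e]; exact h

/-- one factor -/
theorem rep_fac (R : RD θ) {b l : ℕ} (g : Fin b → ℂ) (a : Fin l → ℂ) (K0 M T S : ℕ)
    (k : ℕ) (m : Fin b → ℕ) (t : ℕ) (s : Fin l → ℕ)
    (hg : T = 0 ∨ ∀ j, R.Rep 1 1 (g j)) (ha : k = 0 ∨ ∀ p, R.Rep 1 1 (a p))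
    (hk : k ≤ K0) (hm : ∀ j, m j ≤ M) (ht : t ≤ T) (hs : ∀ p, s p ≤ S) :
    R.Rep (T + K0) (((R.ν : ℝ) + 1) ^ 2 *
      ((((1 + l * S : ℕ) : ℝ) ^ K0) * ((1 + b * M + K0 : ℕ) : ℝ) ^ T))
      (LamF (∑ j, g j * (m j : ℂ)) k t (∑ p, a p * (s p : ℂ))) := by
  have hν : (0 : ℝ) ≤ (R.ν : ℝ) + 1 := by positivity
  set X := ∑ p, a p * (s p : ℂ) with hX
  set Y := ∑ j, g j * (m j : ℂ) with hY
  have hYp : ∀ j, R.Rep (t - j) (((R.ν : ℝ) + 1) * ((b * M : ℕ) : ℝ) ^ (t - j)) (Y ^ (t - j)) := by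
    intro j
    rcases hg with h0 | hg
    · have : t - j = 0 := by omega
      rw [this, pow_zero, pow_zero, mul_one]
      exact Rep.one R
    · have h := (rep_lin' R g hg M m hm).pow (t - j)
      rw [one_mul] at h
      exact h
  have hXp : ∀ j, R.Rep (k - j) (((R.ν : ℝ) + 1) * ((l * S : ℕ) : ℝ) ^ (k - j)) (X ^ (k - j)) := by
    intro j
    rcases ha with h0 | ha
    · have : k - j = 0 := by omega
      rw [this, pow_zero, pow_zero, mul_one]
      exact Rep.one R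
    · have h := (rep_lin' R a ha S s hs).pow (k - j)
      rw [one_mul] at h
      exact h
  have hterm : ∀ j ∈ range (t + 1), R.Rep (T + K0)
      ((((R.ν : ℝ) + 1) ^ 2 * ((1 + l * S : ℕ) : ℝ) ^ K0) *
        ((K0 : ℝ) ^ j * ((b * M : ℕ) : ℝ) ^ (t - j) * (t.choose j : ℝ)))
      ((t.choose j : ℂ) * Y ^ (t - j) * (k.descFactorial j : ℂ) * X ^ (k - j)) := by
    intro j _
    have h1 := ((hYp j).mul (hXp j)).nat_mul (t.choose j * k.descFactorial j)
    have h2 : t - j + (k - j) ≤ T + K0 := by omega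
    have e : (t.choose j : ℂ) * Y ^ (t - j) * (k.descFactorial j : ℂ) * X ^ (k - j) =
        ((t.choose j * k.descFactorial j : ℕ) : ℂ) * (Y ^ (t - j) * X ^ (k - j)) := by
      push_cast; ring
    rw [e]
    refine (h1.lift h2).mono ?_
    have h3 : (k.descFactorial j : ℝ) ≤ (K0 : ℝ) ^ j := by
      calc (k.descFactorial j : ℝ) ≤ ((k ^ j : ℕ) : ℝ) := by
            exact_mod_cast Nat.descFactorial_le_pow k j
        _ ≤ (K0 : ℝ) ^ j := by
            push_cast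
            exact pow_le_pow_left₀ (Nat.cast_nonneg _) (by exact_mod_cast hk) _
    have h4 : ((l * S : ℕ) : ℝ) ^ (k - j) ≤ ((1 + l * S : ℕ) : ℝ) ^ K0 := by
      calc ((l * S : ℕ) : ℝ) ^ (k - j) ≤ ((1 + l * S : ℕ) : ℝ) ^ (k - j) :=
            pow_le_pow_left₀ (Nat.cast_nonneg _) (by exact_mod_cast Nat.le_add_left _ _) _
        _ ≤ ((1 + l * S : ℕ) : ℝ) ^ K0 :=
            pow_le_pow_right₀ (by exact_mod_cast Nat.le_add_right _ _) (by omega)
    calc ((t.choose j * k.descFactorial j : ℕ) : ℝ) * (((R.ν : ℝ) + 1) * ((b * M : ℕ) : ℝ) ^ (t - j) *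
          (((R.ν : ℝ) + 1) * ((l * S : ℕ) : ℝ) ^ (k - j)))
        = (((R.ν : ℝ) + 1) ^ 2 * ((l * S : ℕ) : ℝ) ^ (k - j)) *
          ((k.descFactorial j : ℝ) * ((b * M : ℕ) : ℝ) ^ (t - j) * (t.choose j : ℝ)) := by
          push_cast; ring
      _ ≤ _ := by gcongr
  have hsum := Rep.sum (R := R) (range (t + 1)) _ _ _ hterm
  refine (show R.Rep (T + K0) _ (LamF Y k t X) from hsum).mono ?_
  rw [← Finset.mul_sum, ← add_pow, mul_assoc]
  apply mul_le_mul_of_nonneg_left _ (by positivity)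
  apply mul_le_mul_of_nonneg_left _ (by positivity)
  calc ((K0 : ℝ) + ((b * M : ℕ) : ℝ)) ^ t ≤ ((1 + b * M + K0 : ℕ) : ℝ) ^ t := by
        apply pow_le_pow_left₀ (by positivity)
        push_cast; linarith
    _ ≤ ((1 + b * M + K0 : ℕ) : ℝ) ^ T := by
        apply pow_le_pow_right₀ _ ht
        exact_mod_cast (by omega : 1 ≤ 1 + b * M + K0)

/-- the exponential part -/
theorem rep_chi (R : RD θ) {b l : ℕ} (χ : Fin b → Fin l → ℂ) (hχ : ∀ j p, R.Rep 1 1 (χ j p))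
    (M S : ℕ) (m : Fin b → ℕ) (s : Fin l → ℕ) (hm : ∀ j, m j ≤ M) (hs : ∀ p, s p ≤ S) :
    R.Rep (b * (l * (S * M))) (((R.ν : ℝ) + 1) ^ (b * l + 1))
      (∏ j, (∏ p, χ j p ^ s p) ^ m j) := by
  have h1 : ∏ j, (∏ p, χ j p ^ s p) ^ m j =
      ∏ q : Fin b × Fin l, χ q.1 q.2 ^ (s q.2 * m q.1) := by
    rw [Fintype.prod_prod_type]
    refine Finset.prod_congr rfl fun j _ => ?_
    rw [← Finset.prod_pow]
    refine Finset.prod_congr rfl fun p _ => ?_
    rw [pow_mul]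
  rw [h1]
  have h2 := Rep.prod (R := R) (Finset.univ : Finset (Fin b × Fin l))
    (fun q => 1 * (s q.2 * m q.1)) (fun q => ((R.ν : ℝ) + 1) * 1 ^ (s q.2 * m q.1))
    (fun q => χ q.1 q.2 ^ (s q.2 * m q.1)) (fun q _ => (hχ q.1 q.2).pow _)
  have h3 : ∑ q : Fin b × Fin l, 1 * (s q.2 * m q.1) ≤ b * (l * (S * M)) := by
    calc ∑ q : Fin b × Fin l, 1 * (s q.2 * m q.1) ≤ ∑ _q : Fin b × Fin l, S * M := by
          apply Finset.sum_le_sum
          intro q _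
          rw [one_mul]
          exact Nat.mul_le_mul (hs _) (hm _)
      _ = b * (l * (S * M)) := by simp; ring
  refine (h2.lift h3).mono (le_of_eq ?_)
  simp only [one_pow, mul_one, Finset.prod_const, Finset.card_univ, Fintype.card_prod,
    Fintype.card_fin]
  ring

theorem rep : S_rep := by
  intro θ R w b l γ α χ K0 M T S k m t s hγ hα hχ hk hm ht hs
  have h1 : ∀ i ∈ (Finset.univ : Finset (Fin w)), R.Rep (T + K0) (((R.ν : ℝ) + 1) ^ 2 *
      ((((1 + l * S : ℕ) : ℝ) ^ K0) * ((1 + b * M + K0 : ℕ) : ℝ) ^ T))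
      (LamF (∑ j, γ i j * (m j : ℂ)) (k i) (t i) (∑ p, α i p * (s p : ℂ))) := fun i _ =>
    rep_fac R (γ i) (α i) K0 M T S (k i) m (t i) s (hγ.imp_right fun h j => h i j) (hα i)
      (hk i) hm (ht i) hs
  have h2 := Rep.prod (R := R) Finset.univ _ _ _ h1
  have h3 := h2.mul (rep_chi R χ hχ M S m s hm hs)
  unfold entG
  convert h3 using 1
  · simp
  · simp only [Finset.prod_const, Finset.card_univ, Fintype.card_fin]
    generalize (R.ν : ℝ) + 1 = u
    generalize (((1 + l * S : ℕ) : ℝ) ^ K0) * ((1 + b * M + K0 : ℕ) : ℝ) ^ T = z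
    rw [mul_pow]
    ring

end Pool.Agent.W975.TD
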